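import Pool.Agent.Work.MP_59976d_co_even.Basic
import Pool.Agent.Work.MP_59976d_co_even.Interface

/-!
Block S2b: an involution `a + a` that is a lost sum; quotient by the cyclic group of order four
generated by `a`.
-/

namespace Pool.Agent.Work.MP_59976d_co

open Finset
open scoped Pointwise

universe u

namespace S2b

section cells

variable {Q : Type u} [AddCommGroup Q] [Finite Q] [DecidableEq Q]

/-- A cell all of whose sums are good. -/
lemma cell_full (hS : Stmt_Scherk.{u}) (X Y H : Finset Q) (h0X : (0 : Q) ∉ X) (h0Y : (0 : Q) ∉ Y)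
    (hXY : ∀ i ∈ X, -i ∉ Y)
    (hsum : ∀ i ∈ insert 0 X, ∀ j ∈ insert 0 Y, i + j ≠ 0 → i + j ∈ H) :
    X.card + Y.card ≤ H.card := by
  have h1 := hS Q (insert 0 X) (insert 0 Y) 0 0 (mem_insert_self _ _) (mem_insert_self _ _) (by
    intro x hx y hy hxy
    rw [add_zero] at hxy
    rcases mem_insert.1 hx with h | h
    · exact h
    · have hy' : y = -x := by rw [eq_neg_iff_add_eq_zero, add_comm]; exact hxy
      rcases mem_insert.1 hy with h' | h'
      · rw [hy', neg_eq_zero] at h'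
        exact h'
      · rw [hy'] at h'
        exact absurd h' (hXY x h))
  have h2 : insert 0 X + insert 0 Y ⊆ insert 0 H := by
    intro z hz
    rw [mem_add] at hz
    obtain ⟨i, hi, j, hj, rfl⟩ := hz
    by_cases h : i + j = 0
    · rw [h]; exact mem_insert_self _ _
    · exact mem_insert_of_mem (hsum i hi j hj h)
  have h3 := card_le_card h2
  have h4 := card_insert_le (0 : Q) H
  rw [card_insert_of_notMem h0X, card_insert_of_notMem h0Y] at h1
  omega

/-- A cell whose nondiagonal sums are good. -/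
lemma cell_restr (hS : Stmt_Scherk.{u}) (hQ : RestrictedScherk Q) (X Y H : Finset Q)
    (h0X : (0 : Q) ∉ X) (h0Y : (0 : Q) ∉ Y) (hXY : ∀ i ∈ X, -i ∉ Y)
    (hsum : ∀ i ∈ insert 0 X, ∀ j ∈ insert 0 Y, i ≠ j → i + j ≠ 0 → i + j ∈ H) :
    X.card + Y.card ≤ H.card ∨
      (X.card + Y.card ≤ H.card + 1 ∧ ∃ i ∈ X, i ∈ Y ∧ i + i ≠ 0 ∧ i + i ∉ H) := by
  by_cases h : ∃ i ∈ X, i ∈ Y ∧ i + i ∉ H
  · right
    obtain ⟨i, hi, hi', hi2⟩ := h
    refine ⟨?_, i, hi, hi', ?_, hi2⟩
    · rw [restrictedScherk_iff] at hQ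
      have hadm : Adm (insert 0 X) (insert 0 Y) := by
        refine ⟨mem_insert_self _ _, mem_insert_self _ _, ?_⟩
        intro x hx hy
        rcases mem_insert.1 hx with h | h
        · exact h
        · rcases mem_insert.1 hy with h' | h'
          · rwa [neg_eq_zero] at h'
          · exact absurd h' (hXY x h)
      have h1 := hQ _ _ hadm
      have h2 : rs (insert 0 X) (insert 0 Y) ⊆ H := by
        intro z hz
        rw [mem_rs] at hz
        obtain ⟨x, hx, y, hy, hne, rfl⟩ := hz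
        apply hsum x hx y hy hne
        intro h0
        have hy' : y = -x := by rw [eq_neg_iff_add_eq_zero, add_comm]; exact h0
        rw [hy'] at hy
        have := hadm.uniq x hx hy
        apply hne
        rw [hy', this, neg_zero]
      have h3 := card_le_card h2
      rw [card_insert_of_notMem h0X, card_insert_of_notMem h0Y] at h1
      omega
    · intro h0
      apply hXY i hi
      rwa [← eq_neg_of_add_eq_zero_left h0]
  · left
    replace h : ∀ i ∈ X, i ∈ Y → i + i ∈ H := by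
      intro i hi hi'
      by_contra hc
      exact h ⟨i, hi, hi', hc⟩
    apply cell_full hS X Y H h0X h0Y hXY
    intro i hi j hj hij
    by_cases he : i = j
    · subst he
      rcases mem_insert.1 hi with h1 | h1
      · rw [h1, add_zero] at hij
        exact absurd rfl hij
      · rcases mem_insert.1 hj with h2 | h2
        · rw [h2, add_zero] at hij
          exact absurd rfl hij
        · exact h i h1 h2
    · exact hsum i hi j hj he hij

end cells

section four

variable {G : Type u} [AddCommGroup G] {a : G}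

lemma mem_zm4 (h4 : a + a + (a + a) = 0) {x : G} :
    x ∈ AddSubgroup.zmultiples a ↔ x = 0 ∨ x = a ∨ x = a + a ∨ x = a + a + a := by
  rw [AddSubgroup.mem_zmultiples_iff]
  constructor
  · rintro ⟨k, rfl⟩
    have h5 : (4 : ℤ) • a = 0 := by
      have : (4 : ℤ) • a = a + a + (a + a) := by abel
      rw [this, h4]
    have hk : k = 4 * (k / 4) + k % 4 := (Int.mul_ediv_add_emod k 4).symm
    have h6 : k • a = (k % 4) • a := by
      conv_lhs => rw [hk]
      rw [add_zsmul, mul_comm, mul_zsmul, h5, zsmul_zero, zero_add]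
    rw [h6]
    have h7 : 0 ≤ k % 4 := Int.emod_nonneg _ (by norm_num)
    have h8 : k % 4 < 4 := Int.emod_lt_of_pos _ (by norm_num)
    interval_cases (k % 4)
    · left; exact zero_zsmul _
    · right; left; exact one_zsmul _
    · right; right; left; abel
    · right; right; right; abel
  · rintro (rfl | rfl | rfl | rfl)
    · exact ⟨0, zero_zsmul _⟩
    · exact ⟨1, one_zsmul _⟩
    · exact ⟨2, by abel⟩
    · exact ⟨3, by abel⟩

lemma mk_eq4 (h4 : a + a + (a + a) = 0) {x y : G} :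
    (QuotientAddGroup.mk y : G ⧸ AddSubgroup.zmultiples a) = QuotientAddGroup.mk x ↔
      y = x ∨ y = x + a ∨ y = x + (a + a) ∨ y = x + (a + a + a) := by
  rw [eq_comm, QuotientAddGroup.eq, mem_zm4 h4]
  have e : ∀ z : G, -x + y = z ↔ y = x + z := by
    intro z
    rw [neg_add_eq_iff_eq_add]
  rw [e, e, e, e, add_zero]

/-- The four elements of a coset are different. -/
lemma four_ne (h2 : a + a ≠ 0) (h4 : a + a + (a + a) = 0) (x : G) :
    x ≠ x + a ∧ x ≠ x + (a + a) ∧ x ≠ x + (a + a + a) ∧ x + a ≠ x + (a + a) ∧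
      x + a ≠ x + (a + a + a) ∧ x + (a + a) ≠ x + (a + a + a) := by
  have h1 : a ≠ 0 := by rintro rfl; exact h2 (add_zero 0)
  have h3 : a + a + a ≠ 0 := by
    intro h
    apply h1
    have : a = a + a + (a + a) - (a + a + a) := by abel
    rw [this, h4, h, sub_zero]
  refine ⟨?_, ?_, ?_, ?_, ?_, ?_⟩
  · intro h; exact h1 (by simpa using h)
  · intro h; exact h2 (by simpa using h)
  · intro h; exact h3 (by simpa using h)
  · intro h; have := add_left_cancel h; exact h1 (by simpa using this)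
  · intro h; have := add_left_cancel h
    apply h2
    have e : a + (a + a) = a := by rw [← add_assoc]; exact this.symm
    simpa using e
  · intro h; have := add_left_cancel h; exact h1 (by simpa using this)

/-- The predicates `f1, …, f4` of the blueprint. -/
def Q1f (a : G) (A : Finset G) (i : G ⧸ AddSubgroup.zmultiples a) : Prop :=
  ∃ x : G, QuotientAddGroup.mk x = i ∧ x ∈ A
def Q2f (a : G) (A : Finset G) (i : G ⧸ AddSubgroup.zmultiples a) : Prop :=
  ∃ x : G, QuotientAddGroup.mk x = i ∧ x ∈ A ∧ x + a ∈ A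
def Q3f (a : G) (A : Finset G) (i : G ⧸ AddSubgroup.zmultiples a) : Prop :=
  ∃ x : G, QuotientAddGroup.mk x = i ∧ x ∈ A ∧ x + (a + a) ∈ A
def Q4f (a : G) (A : Finset G) (i : G ⧸ AddSubgroup.zmultiples a) : Prop :=
  ∀ x : G, QuotientAddGroup.mk x = i → x ∈ A

lemma Q1f_iff (h4 : a + a + (a + a) = 0) (A : Finset G) (x : G) :
    Q1f a A (QuotientAddGroup.mk x) ↔
      x ∈ A ∨ x + a ∈ A ∨ x + (a + a) ∈ A ∨ x + (a + a + a) ∈ A := by
  unfold Q1f
  constructor
  · rintro ⟨y, hy, hA⟩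
    rw [mk_eq4 h4] at hy
    rcases hy with rfl | rfl | rfl | rfl <;> tauto
  · rintro (h | h | h | h)
    · exact ⟨_, (mk_eq4 h4).2 (Or.inl rfl), h⟩
    · exact ⟨_, (mk_eq4 h4).2 (Or.inr (Or.inl rfl)), h⟩
    · exact ⟨_, (mk_eq4 h4).2 (Or.inr (Or.inr (Or.inl rfl))), h⟩
    · exact ⟨_, (mk_eq4 h4).2 (Or.inr (Or.inr (Or.inr rfl))), h⟩

lemma Q2f_iff (h4 : a + a + (a + a) = 0) (A : Finset G) (x : G) :
    Q2f a A (QuotientAddGroup.mk x) ↔
      (x ∈ A ∧ x + a ∈ A) ∨ (x + a ∈ A ∧ x + (a + a) ∈ A) ∨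
      (x + (a + a) ∈ A ∧ x + (a + a + a) ∈ A) ∨ (x + (a + a + a) ∈ A ∧ x ∈ A) := by
  have e1 : x + a + a = x + (a + a) := by abel
  have e2 : x + (a + a) + a = x + (a + a + a) := by abel
  have e3 : x + (a + a + a) + a = x := by
    have : x + (a + a + a) + a = x + (a + a + (a + a)) := by abel
    rw [this, h4, add_zero]
  unfold Q2f
  constructor
  · rintro ⟨y, hy, hA, hA'⟩
    rw [mk_eq4 h4] at hy
    rcases hy with rfl | rfl | rfl | rfl
    · exact Or.inl ⟨hA, hA'⟩
    · rw [e1] at hA'; exact Or.inr (Or.inl ⟨hA, hA'⟩)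
    · rw [e2] at hA'; exact Or.inr (Or.inr (Or.inl ⟨hA, hA'⟩))
    · rw [e3] at hA'; exact Or.inr (Or.inr (Or.inr ⟨hA, hA'⟩))
  · rintro (⟨h, h'⟩ | ⟨h, h'⟩ | ⟨h, h'⟩ | ⟨h, h'⟩)
    · exact ⟨_, (mk_eq4 h4).2 (Or.inl rfl), h, h'⟩
    · exact ⟨_, (mk_eq4 h4).2 (Or.inr (Or.inl rfl)), h, by rwa [e1]⟩
    · exact ⟨_, (mk_eq4 h4).2 (Or.inr (Or.inr (Or.inl rfl))), h, by rwa [e2]⟩
    · exact ⟨_, (mk_eq4 h4).2 (Or.inr (Or.inr (Or.inr rfl))), h, by rwa [e3]⟩

lemma Q3f_iff (h4 : a + a + (a + a) = 0) (A : Finset G) (x : G) :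
    Q3f a A (QuotientAddGroup.mk x) ↔
      (x ∈ A ∧ x + (a + a) ∈ A) ∨ (x + a ∈ A ∧ x + (a + a + a) ∈ A) := by
  have e1 : x + a + (a + a) = x + (a + a + a) := by abel
  have e2 : x + (a + a) + (a + a) = x := by rw [add_assoc, h4, add_zero]
  have e3 : x + (a + a + a) + (a + a) = x + a := by
    have : x + (a + a + a) + (a + a) = x + a + (a + a + (a + a)) := by abel
    rw [this, h4, add_zero]
  unfold Q3f
  constructor
  · rintro ⟨y, hy, hA, hA'⟩
    rw [mk_eq4 h4] at hy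
    rcases hy with rfl | rfl | rfl | rfl
    · exact Or.inl ⟨hA, hA'⟩
    · rw [e1] at hA'; exact Or.inr ⟨hA, hA'⟩
    · rw [e2] at hA'; exact Or.inl ⟨hA', hA⟩
    · rw [e3] at hA'; exact Or.inr ⟨hA', hA⟩
  · rintro (⟨h, h'⟩ | ⟨h, h'⟩)
    · exact ⟨_, (mk_eq4 h4).2 (Or.inl rfl), h, h'⟩
    · exact ⟨_, (mk_eq4 h4).2 (Or.inr (Or.inl rfl)), h, by rwa [e1]⟩

lemma Q4f_iff (h4 : a + a + (a + a) = 0) (A : Finset G) (x : G) :
    Q4f a A (QuotientAddGroup.mk x) ↔
      x ∈ A ∧ x + a ∈ A ∧ x + (a + a) ∈ A ∧ x + (a + a + a) ∈ A := by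
  unfold Q4f
  constructor
  · intro h
    exact ⟨h _ ((mk_eq4 h4).2 (Or.inl rfl)), h _ ((mk_eq4 h4).2 (Or.inr (Or.inl rfl))),
      h _ ((mk_eq4 h4).2 (Or.inr (Or.inr (Or.inl rfl)))),
      h _ ((mk_eq4 h4).2 (Or.inr (Or.inr (Or.inr rfl))))⟩
  · rintro ⟨h1, h2, h3, h5⟩ y hy
    rw [mk_eq4 h4] at hy
    rcases hy with rfl | rfl | rfl | rfl <;> assumption

open Classical in
lemma card_part4 (h2 : a + a ≠ 0) (h4 : a + a + (a + a) = 0) (A : Finset G)
    (i : G ⧸ AddSubgroup.zmultiples a) :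
    (part _ A i).card = (if Q1f a A i then 1 else 0) + (if Q2f a A i then 1 else 0) +
      (if Q3f a A i then 1 else 0) + (if Q4f a A i then 1 else 0) := by
  obtain ⟨x, rfl⟩ := QuotientAddGroup.mk_surjective i
  obtain ⟨n1, n2, n3, n4, n5, n6⟩ := four_ne h2 h4 x
  have e : part _ A (QuotientAddGroup.mk x : G ⧸ AddSubgroup.zmultiples a) =
      ({x, x + a, x + (a + a), x + (a + a + a)} : Finset G).filter (fun y => y ∈ A) := by
    ext y
    rw [mem_part, mem_filter, mk_eq4 h4]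
    simp only [mem_insert, mem_singleton]
    tauto
  rw [e, Q1f_iff h4, Q2f_iff h4, Q3f_iff h4, Q4f_iff h4, card_filter,
    sum_insert (by simp only [mem_insert, mem_singleton]; tauto),
    sum_insert (by simp only [mem_insert, mem_singleton]; tauto),
    sum_insert (by simp only [mem_singleton]; tauto), sum_singleton]
  by_cases p0 : x ∈ A <;> by_cases p1 : x + a ∈ A <;> by_cases p2 : x + (a + a) ∈ A <;>
    by_cases p3 : x + (a + a + a) ∈ A <;> simp [p0, p1, p2, p3]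


variable {A B : Finset G} {i j : G ⧸ AddSubgroup.zmultiples a}

lemma Q2f.one (h : Q2f a A i) : Q1f a A i := by
  obtain ⟨x, hx, hA, -⟩ := h
  exact ⟨x, hx, hA⟩

lemma Q3f.one (h : Q3f a A i) : Q1f a A i := by
  obtain ⟨x, hx, hA, -⟩ := h
  exact ⟨x, hx, hA⟩

lemma Q4f.two (h4 : a + a + (a + a) = 0) (h : Q4f a A i) : Q2f a A i := by
  obtain ⟨x, rfl⟩ := QuotientAddGroup.mk_surjective i
  rw [Q4f_iff h4] at h
  rw [Q2f_iff h4]
  tauto

lemma Q4f.three (h4 : a + a + (a + a) = 0) (h : Q4f a A i) : Q3f a A i := by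
  obtain ⟨x, rfl⟩ := QuotientAddGroup.mk_surjective i
  rw [Q4f_iff h4] at h
  rw [Q3f_iff h4]
  tauto

lemma Q1f.mono (hBA : B ⊆ A) (h : Q1f a B i) : Q1f a A i := by
  obtain ⟨x, hx, hA⟩ := h
  exact ⟨x, hx, hBA hA⟩

lemma Q2f.mono (hBA : B ⊆ A) (h : Q2f a B i) : Q2f a A i := by
  obtain ⟨x, hx, hA, hA'⟩ := h
  exact ⟨x, hx, hBA hA, hBA hA'⟩

lemma Q3f.mono (hBA : B ⊆ A) (h : Q3f a B i) : Q3f a A i := by
  obtain ⟨x, hx, hA, hA'⟩ := h
  exact ⟨x, hx, hBA hA, hBA hA'⟩

lemma Q4f.mono (hBA : B ⊆ A) (h : Q4f a B i) : Q4f a A i :=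
  fun x hx => hBA (h x hx)

lemma mk_ne (hij : i ≠ j) {x y : G} (hx : (QuotientAddGroup.mk x : G ⧸ _) = i)
    (hy : (QuotientAddGroup.mk y : G ⧸ _) = j) : x ≠ y := by
  rintro rfl
  exact hij (hx.symm.trans hy)

lemma mk_add' {x y : G} (hx : (QuotientAddGroup.mk x : G ⧸ AddSubgroup.zmultiples a) = i)
    (hy : (QuotientAddGroup.mk y : G ⧸ AddSubgroup.zmultiples a) = j) :
    (QuotientAddGroup.mk (x + y) : G ⧸ AddSubgroup.zmultiples a) = i + j := by
  rw [QuotientAddGroup.mk_add, hx, hy]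

lemma mk_a : (QuotientAddGroup.mk a : G ⧸ AddSubgroup.zmultiples a) = 0 :=
  (QuotientAddGroup.eq_zero_iff a).2 (AddSubgroup.mem_zmultiples a)

lemma mk_add_a {x : G} (hx : (QuotientAddGroup.mk x : G ⧸ AddSubgroup.zmultiples a) = i) :
    (QuotientAddGroup.mk (x + a) : G ⧸ AddSubgroup.zmultiples a) = i := by
  rw [QuotientAddGroup.mk_add, hx, mk_a, add_zero]

lemma mk_add_aa {x : G} (hx : (QuotientAddGroup.mk x : G ⧸ AddSubgroup.zmultiples a) = i) :
    (QuotientAddGroup.mk (x + (a + a)) : G ⧸ AddSubgroup.zmultiples a) = i := by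
  rw [← add_assoc]
  exact mk_add_a (mk_add_a hx)

variable [DecidableEq G]

/-- sums, level 1 -/
lemma sum1 (h1 : a ≠ 0) (hA : Q1f a A i) (hB : Q2f a B j) : Q1f a (rs A B) (i + j) := by
  obtain ⟨x, hx, hxA⟩ := hA
  obtain ⟨y, hy, hyB, hyB'⟩ := hB
  by_cases h : x = y
  · refine ⟨x + (y + a), mk_add' hx (mk_add_a hy), mem_rs.2 ⟨x, hxA, y + a, hyB', ?_, rfl⟩⟩
    intro h'
    apply h1
    rw [h] at h'
    simpa using h'
  · exact ⟨x + y, mk_add' hx hy, mem_rs.2 ⟨x, hxA, y, hyB, h, rfl⟩⟩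

/-- sums, level 2 -/
lemma sum2 (hij : i ≠ j) (hA : Q2f a A i) (hB : Q1f a B j) : Q2f a (rs A B) (i + j) := by
  obtain ⟨x, hx, hxA, hxA'⟩ := hA
  obtain ⟨y, hy, hyB⟩ := hB
  refine ⟨x + y, mk_add' hx hy, mem_rs.2 ⟨x, hxA, y, hyB, mk_ne hij hx hy, rfl⟩,
    mem_rs.2 ⟨x + a, hxA', y, hyB, mk_ne hij (mk_add_a hx) hy, by abel⟩⟩

/-- sums, level 3 -/
lemma sum3 (hij : i ≠ j) (hA : Q2f a A i)
    (hB : Q2f a B j ∨ Q3f a B j) : Q3f a (rs A B) (i + j) := by
  obtain ⟨x, hx, hxA, hxA'⟩ := hA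
  rcases hB with hB | hB
  · obtain ⟨y, hy, hyB, hyB'⟩ := hB
    refine ⟨x + y, mk_add' hx hy, mem_rs.2 ⟨x, hxA, y, hyB, mk_ne hij hx hy, rfl⟩,
      mem_rs.2 ⟨x + a, hxA', y + a, hyB', mk_ne hij (mk_add_a hx) (mk_add_a hy), by abel⟩⟩
  · obtain ⟨y, hy, hyB, hyB'⟩ := hB
    refine ⟨x + y, mk_add' hx hy, mem_rs.2 ⟨x, hxA, y, hyB, mk_ne hij hx hy, rfl⟩,
      mem_rs.2 ⟨x, hxA, y + (a + a), hyB', mk_ne hij hx (mk_add_aa hy), by abel⟩⟩

/-- sums, level 4 -/
lemma sum4 (h4 : a + a + (a + a) = 0) (hij : i ≠ j) (hA : Q3f a A i) (hB : Q2f a B j) :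
    Q4f a (rs A B) (i + j) := by
  obtain ⟨x, hx, hxA, hxA'⟩ := hA
  obtain ⟨y, hy, hyB, hyB'⟩ := hB
  have h := mk_add' hx hy
  rw [← h, Q4f_iff h4]
  refine ⟨mem_rs.2 ⟨x, hxA, y, hyB, mk_ne hij hx hy, rfl⟩,
    mem_rs.2 ⟨x, hxA, y + a, hyB', mk_ne hij hx (mk_add_a hy), by abel⟩,
    mem_rs.2 ⟨x + (a + a), hxA', y, hyB, mk_ne hij (mk_add_aa hx) hy, by abel⟩,
    mem_rs.2 ⟨x + (a + a), hxA', y + a, hyB', mk_ne hij (mk_add_aa hx) (mk_add_a hy), by abel⟩⟩

/-- sums, level 4, the other way round -/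
lemma sum4' (h4 : a + a + (a + a) = 0) (hij : i ≠ j) (hA : Q2f a A i) (hB : Q3f a B j) :
    Q4f a (rs A B) (i + j) := by
  rw [rs_comm, add_comm]
  exact sum4 h4 hij.symm hB hA

/-- A full coset is not lossy at level 2. -/
lemma diag2 (h1 : a ≠ 0) (h2 : a + a ≠ 0) (hA : Q4f a A i) (hB : Q1f a B i) :
    Q2f a (rs A B) (i + i) := by
  obtain ⟨y, hy, hyB⟩ := hB
  refine ⟨y + a + y, mk_add' (mk_add_a hy) hy,
    mem_rs.2 ⟨y + a, hA _ (mk_add_a hy), y, hyB, ?_, rfl⟩,
    mem_rs.2 ⟨y + (a + a), hA _ (mk_add_aa hy), y, hyB, ?_, by abel⟩⟩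
  · intro h; exact h1 (by simpa using h)
  · intro h; exact h2 (by simpa using h)

/-- Level 3. -/
lemma diag3 (h2 : a + a ≠ 0) (h4 : a + a + (a + a) = 0) (hBA : B ⊆ A)
    (hA : Q2f a A i) (hA' : Q3f a A i) (hB : Q2f a B i ∨ Q3f a B i) :
    Q3f a (rs A B) (i + i) := by
  classical
  by_contra hcon
  have hcon4 : ¬ Q4f a (rs A B) (i + i) := fun h => hcon (h.three h4)
  have hC := card_part4 h2 h4 (rs A B) (i + i)
  rw [if_neg hcon, if_neg hcon4] at hC
  have hC2 : (part _ (rs A B) (i + i)).card ≤ 2 := by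
    rw [hC]
    split_ifs <;> omega
  have hAc : 3 ≤ (part _ A i).card := by
    rw [card_part4 h2 h4, if_pos hA.one, if_pos hA, if_pos hA']
    omega
  have hBc : 2 ≤ (part _ B i).card := by
    rw [card_part4 h2 h4]
    rcases hB with hB | hB
    · rw [if_pos hB.one, if_pos hB]; omega
    · rw [if_pos hB.one, if_pos hB]; omega
  obtain ⟨y1, hy1, y2, hy2, hne⟩ := one_lt_card.1 hBc
  have hz : ∃ z ∈ part _ A i, z ∉ ({y1, y2} : Finset G) := by
    by_contra hno
    have hsub : part _ A i ⊆ ({y1, y2} : Finset G) := by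
      intro z hz
      by_contra hz'
      exact hno ⟨z, hz, hz'⟩
    have := card_le_card hsub
    have := card_le_two (a := y1) (b := y2)
    omega
  obtain ⟨z, hz, hz'⟩ := hz
  simp only [mem_insert, mem_singleton, not_or] at hz'
  rw [mem_part] at hy1 hy2 hz
  have hsub : ({y1 + y2, z + y1, z + y2} : Finset G) ⊆ part _ (rs A B) (i + i) := by
    intro w hw
    simp only [mem_insert, mem_singleton] at hw
    rcases hw with rfl | rfl | rfl
    · exact mem_part.2 ⟨mem_rs.2 ⟨y1, hBA hy1.1, y2, hy2.1, hne, rfl⟩, mk_add' hy1.2 hy2.2⟩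
    · exact mem_part.2 ⟨mem_rs.2 ⟨z, hz.1, y1, hy1.1, hz'.1, rfl⟩, mk_add' hz.2 hy1.2⟩
    · exact mem_part.2 ⟨mem_rs.2 ⟨z, hz.1, y2, hy2.1, hz'.2, rfl⟩, mk_add' hz.2 hy2.2⟩
  have h3 := card_le_card hsub
  have h5 : ({y1 + y2, z + y1, z + y2} : Finset G).card = 3 := by
    rw [card_eq_three]
    refine ⟨_, _, _, ?_, ?_, ?_, rfl⟩
    · intro h
      rw [add_comm y1 y2] at h
      exact hz'.2 (add_right_cancel h).symm
    · intro h
      exact hz'.1 (add_right_cancel h).symm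
    · intro h
      exact hne (add_left_cancel h)
  omega

/-- Level 4. -/
lemma diag4 (h2 : a + a ≠ 0) (h4 : a + a + (a + a) = 0)
    (hA : Q4f a A i) (hB : Q2f a B i) (hB' : Q3f a B i) :
    Q4f a (rs A B) (i + i) := by
  classical
  have hBc : 3 ≤ (part _ B i).card := by
    rw [card_part4 h2 h4, if_pos hB.one, if_pos hB, if_pos hB']
    omega
  intro z hz
  have hy : ∃ y ∈ part _ B i, y + y ≠ z := by
    by_contra hno
    have hno' : ∀ y ∈ part _ B i, y + y = z := by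
      intro y hy
      by_contra h
      exact hno ⟨y, hy, h⟩
    obtain ⟨y0, hy0⟩ := card_pos.1 (show 0 < (part _ B i).card by omega)
    have hsub : part _ B i ⊆ ({y0, y0 + (a + a)} : Finset G) := by
      intro y hy
      have e1 := hno' y hy
      have e2 := hno' y0 hy0
      have e3 : (QuotientAddGroup.mk y : G ⧸ AddSubgroup.zmultiples a) =
          QuotientAddGroup.mk y0 := (mem_part.1 hy).2.trans (mem_part.1 hy0).2.symm
      rw [mk_eq4 h4] at e3
      simp only [mem_insert, mem_singleton]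
      rcases e3 with rfl | rfl | rfl | rfl
      · exact Or.inl rfl
      · exfalso
        apply h2
        have : y0 + a + (y0 + a) = y0 + y0 + (a + a) := by abel
        rw [this, e2] at e1
        simpa using e1
      · exact Or.inr rfl
      · exfalso
        apply h2
        have : y0 + (a + a + a) + (y0 + (a + a + a)) =
            y0 + y0 + (a + a) + (a + a + (a + a)) := by abel
        rw [this, e2, h4, add_zero] at e1
        simpa using e1
    have := card_le_card hsub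
    have := card_le_two (a := y0) (b := y0 + (a + a))
    omega
  obtain ⟨y, hy, hyz⟩ := hy
  rw [mem_part] at hy
  have hx : (QuotientAddGroup.mk (z - y) : G ⧸ AddSubgroup.zmultiples a) = i := by
    rw [QuotientAddGroup.mk_sub, hz, hy.2, add_sub_cancel_right]
  refine mem_rs.2 ⟨z - y, hA _ hx, y, hy.1, ?_, sub_add_cancel _ _⟩
  intro h
  apply hyz
  rw [← sub_eq_iff_eq_add.1 h]

end four

section main

variable {G : Type u} [AddCommGroup G] [Finite G] {a : G}

/-- The nonzero classes with a given property. -/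
noncomputable def lev4 (P : G ⧸ AddSubgroup.zmultiples a → Prop) :
    Finset (G ⧸ AddSubgroup.zmultiples a) :=
  (Set.toFinite {i : G ⧸ AddSubgroup.zmultiples a | i ≠ 0 ∧ P i}).toFinset

lemma mem_lev4 {P : G ⧸ AddSubgroup.zmultiples a → Prop} {i : G ⧸ AddSubgroup.zmultiples a} :
    i ∈ lev4 P ↔ i ≠ 0 ∧ P i := by
  unfold lev4
  rw [Set.Finite.mem_toFinset, Set.mem_ofPred_eq]

lemma card_four (h2 : a + a ≠ 0) (h4 : a + a + (a + a) = 0) (A : Finset G) :
    A.card = (part (AddSubgroup.zmultiples a) A 0).card + (lev4 (Q1f a A)).card +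
      (lev4 (Q2f a A)).card + (lev4 (Q3f a A)).card + (lev4 (Q4f a A)).card := by
  classical
  have : Fintype (G ⧸ AddSubgroup.zmultiples a) := Fintype.ofFinite _
  have e : ∀ P : G ⧸ AddSubgroup.zmultiples a → Prop,
      (lev4 P).card = ∑ i ∈ univ.erase 0, if P i then 1 else 0 := by
    intro P
    rw [← card_filter]
    congr 1
    ext i
    rw [mem_lev4, mem_filter, mem_erase]
    simp
  rw [e, e, e, e, card_eq_sum_part (AddSubgroup.zmultiples a) A,
    ← add_sum_erase univ (fun i => (part (AddSubgroup.zmultiples a) A i).card) (mem_univ 0),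
    add_assoc, add_assoc, add_assoc, ← sum_add_distrib, ← sum_add_distrib, ← sum_add_distrib]
  congr 1
  apply sum_congr rfl
  intro i _
  rw [card_part4 h2 h4]
  ring

end main

end S2b

open S2b in
/-- Block S2b. -/
theorem stmt_S2b (hS : Stmt_Scherk.{u}) : Stmt_S2b.{u} := by
  intro G _ _ _ A B a h2 h4 hQ hadm hBA hinv haB hlost
  classical
  have h1 : a ≠ 0 := by rintro rfl; exact h2 (add_zero 0)
  have haA : a ∈ A := hBA haB
  have haC : a ∈ rs A B := mem_rs.2 ⟨0, hadm.zA, a, haB, fun h => h1 h.symm, zero_add a⟩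
  -- class zero
  have hA0 : (part (AddSubgroup.zmultiples a) A 0).card ≤ 2 := by
    have hsub : part (AddSubgroup.zmultiples a) A 0 ⊆ ({0, a} : Finset G) := by
      intro x hx
      obtain ⟨hxA, hx0⟩ := mem_part.1 hx
      rw [QuotientAddGroup.eq_zero_iff, mem_zm4 h4] at hx0
      simp only [mem_insert, mem_singleton]
      rcases hx0 with h | h | h | h
      · exact Or.inl h
      · exact Or.inr h
      · exfalso
        apply h2
        apply hinv
        · rw [← h]; exact hxA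
        · exact h4
      · exfalso
        have e : -x = a := by
          rw [h, neg_eq_iff_add_eq_zero]
          have : a + a + a + a = a + a + (a + a) := by abel
          rw [this, h4]
        have hx := hadm.uniq x hxA (by rw [e]; exact haB)
        rw [hx, neg_zero] at e
        exact h1 e.symm
    exact (card_le_card hsub).trans card_le_two
  have hB0 : (part (AddSubgroup.zmultiples a) B 0).card ≤ 2 :=
    (card_part_mono hBA 0).trans hA0
  have hC0 : 1 ≤ (part (AddSubgroup.zmultiples a) (rs A B) 0).card :=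
    card_pos.2 ⟨a, mem_part.2 ⟨haC, mk_a⟩⟩
  have cA := card_four h2 h4 A
  have cB := card_four h2 h4 B
  have cC := card_four h2 h4 (rs A B)
  set F1 := lev4 (Q1f a A) with hF1
  set F2 := lev4 (Q2f a A) with hF2
  set F3 := lev4 (Q3f a A) with hF3
  set F4 := lev4 (Q4f a A) with hF4
  set G1 := lev4 (Q1f a B) with hG1
  set G2 := lev4 (Q2f a B) with hG2
  set G3 := lev4 (Q3f a B) with hG3
  set G4 := lev4 (Q4f a B) with hG4
  set H1 := lev4 (Q1f a (rs A B)) with hH1
  set H2 := lev4 (Q2f a (rs A B)) with hH2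
  set H3 := lev4 (Q3f a (rs A B)) with hH3
  set H4 := lev4 (Q4f a (rs A B)) with hH4
  have z2A : Q2f a A 0 := ⟨0, rfl, hadm.zA, by rwa [zero_add]⟩
  have z2B : Q2f a B 0 := ⟨0, rfl, hadm.zB, by rwa [zero_add]⟩
  have iA1 : ∀ i ∈ insert 0 F1, Q1f a A i := by
    intro i hi
    rcases mem_insert.1 hi with rfl | h
    · exact z2A.one
    · exact (mem_lev4.1 h).2
  have iA2 : ∀ i ∈ insert 0 F2, Q2f a A i := by
    intro i hi
    rcases mem_insert.1 hi with rfl | h
    · exact z2A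
    · exact (mem_lev4.1 h).2
  have iB1 : ∀ i ∈ insert 0 G1, Q1f a B i := by
    intro i hi
    rcases mem_insert.1 hi with rfl | h
    · exact z2B.one
    · exact (mem_lev4.1 h).2
  have iB2 : ∀ i ∈ insert 0 G2, Q2f a B i := by
    intro i hi
    rcases mem_insert.1 hi with rfl | h
    · exact z2B
    · exact (mem_lev4.1 h).2
  have n0 : ∀ P : G ⧸ AddSubgroup.zmultiples a → Prop, (0 : G ⧸ AddSubgroup.zmultiples a) ∉ lev4 P :=
    fun P h => (mem_lev4.1 h).1 rfl
  -- the classes of an element x with x ∈ A, x = 0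
  have key : ∀ x y : G, x ∈ A → y ∈ B → x + y = a + a → x = y := by
    intro x y hx hy hxy
    by_contra hne
    exact hlost (mem_rs.2 ⟨x, hx, y, hy, hne, hxy⟩)
  -- admissibility of the cell (F2, G1)
  have adm21 : ∀ i ∈ F2, -i ∉ G1 := by
    intro i hi hi'
    obtain ⟨hi0, x, hx, hxA, hxA'⟩ := mem_lev4.1 hi
    obtain ⟨-, y, hy, hyB⟩ := mem_lev4.1 hi'
    have hxy := mk_add' hx hy
    rw [add_neg_cancel, QuotientAddGroup.eq_zero_iff, mem_zm4 h4] at hxy
    rcases hxy with h | h | h | h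
    · have hx0 := hadm.uniq x hxA (by rw [← eq_neg_of_add_eq_zero_right h]; exact hyB)
      apply hi0
      rw [← hx, hx0]
      rfl
    · have e := key (x + a) y hxA' hyB (by rw [add_right_comm, h])
      have hx0 : x = 0 := by
        apply hinv x hxA
        rw [← e] at h
        have : x + x + a = a := by rw [add_assoc]; exact h
        simpa using this
      apply hi0
      rw [← hx, hx0]
      rfl
    · have e := key x y hxA hyB h
      have hx0 : x + a = 0 := by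
        apply hinv _ hxA'
        rw [← e] at h
        have : x + a + (x + a) = x + x + (a + a) := by abel
        rw [this, h, h4]
      apply hi0
      rw [← mk_add_a hx, hx0]
      rfl
    · have h' : x + a + y = 0 := by
        have : x + a + y = x + y + a := by abel
        rw [this, h]
        have : a + a + a + a = a + a + (a + a) := by abel
        rw [this, h4]
      have hx0 := hadm.uniq (x + a) hxA' (by rw [← eq_neg_of_add_eq_zero_right h']; exact hyB)
      apply hi0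
      rw [← mk_add_a hx, hx0]
      rfl
  -- admissibility of the cell (F1, G2)
  have adm12 : ∀ i ∈ F1, -i ∉ G2 := by
    intro i hi hi'
    obtain ⟨hi0, x, hx, hxA⟩ := mem_lev4.1 hi
    obtain ⟨hi0', y, hy, hyB, hyB'⟩ := mem_lev4.1 hi'
    have hxy := mk_add' hx hy
    rw [add_neg_cancel, QuotientAddGroup.eq_zero_iff, mem_zm4 h4] at hxy
    rcases hxy with h | h | h | h
    · have hx0 := hadm.uniq x hxA (by rw [← eq_neg_of_add_eq_zero_right h]; exact hyB)
      apply hi0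
      rw [← hx, hx0]
      rfl
    · have e := key x (y + a) hxA hyB' (by rw [← add_assoc, h])
      have hy0 : y = 0 := by
        apply hinv y (hBA hyB)
        rw [e] at h
        have : y + y + a = a := by
          have e2 : y + a + y = y + y + a := by abel
          rw [← e2, h]
        simpa using this
      apply hi0'
      rw [← hy, hy0]
      rfl
    · have e := key x y hxA hyB h
      have hy0 : y + a = 0 := by
        apply hinv _ (hBA hyB')
        rw [e] at h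
        have : y + a + (y + a) = y + y + (a + a) := by abel
        rw [this, h, h4]
      apply hi0'
      rw [← mk_add_a hy, hy0]
      rfl
    · have h' : x + (y + a) = 0 := by
        rw [← add_assoc, h]
        have : a + a + a + a = a + a + (a + a) := by abel
        rw [this, h4]
      have hx0 := hadm.uniq x hxA (by rw [← eq_neg_of_add_eq_zero_right h']; exact hyB')
      apply hi0
      rw [← hx, hx0]
      rfl
  -- inclusions
  have s34 : G2 ∪ G3 ⊆ G1 := by
    intro i hi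
    rcases mem_union.1 hi with h | h
    · exact mem_lev4.2 ⟨(mem_lev4.1 h).1, (mem_lev4.1 h).2.one⟩
    · exact mem_lev4.2 ⟨(mem_lev4.1 h).1, (mem_lev4.1 h).2.one⟩
  have s31 : F3 ⊆ F1 := fun i h => mem_lev4.2 ⟨(mem_lev4.1 h).1, (mem_lev4.1 h).2.one⟩
  have sF : F4 ⊆ F2 := fun i h => mem_lev4.2 ⟨(mem_lev4.1 h).1, (mem_lev4.1 h).2.two h4⟩
  have sG : G4 ⊆ G2 := fun i h => mem_lev4.2 ⟨(mem_lev4.1 h).1, (mem_lev4.1 h).2.two h4⟩
  -- the four cells
  have c1 : F1.card + G2.card ≤ H1.card := by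
    apply cell_full hS F1 G2 H1 (n0 _) (n0 _) adm12
    intro i hi j hj hij
    exact mem_lev4.2 ⟨hij, sum1 h1 (iA1 i hi) (iB2 j hj)⟩
  have c2 := cell_restr hS hQ F2 G1 H2 (n0 _) (n0 _) adm21 (by
    intro i hi j hj hne hij
    exact mem_lev4.2 ⟨hij, sum2 hne (iA2 i hi) (iB1 j hj)⟩)
  have c3 := cell_restr hS hQ F2 (G2 ∪ G3) H3 (n0 _) (fun h => n0 _ (s34 h))
    (fun i hi h => adm21 i hi (s34 h)) (by
    intro i hi j hj hne hij
    refine mem_lev4.2 ⟨hij, sum3 hne (iA2 i hi) ?_⟩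
    rcases mem_insert.1 hj with rfl | h
    · exact Or.inl z2B
    · rcases mem_union.1 h with h | h
      · exact Or.inl (mem_lev4.1 h).2
      · exact Or.inr (mem_lev4.1 h).2)
  have c4 := cell_restr hS hQ F3 (G2 ∩ G3) H4 (n0 _) (fun h => n0 _ (mem_inter.1 h).1)
    (fun i hi h => adm12 i (s31 hi) (mem_inter.1 h).1) (by
    intro i hi j hj hne hij
    refine mem_lev4.2 ⟨hij, ?_⟩
    rcases mem_insert.1 hi with rfl | h
    · rcases mem_insert.1 hj with rfl | h'
      · exact absurd rfl hne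
      · exact sum4' h4 hne z2A (mem_lev4.1 (mem_inter.1 h').2).2
    · apply sum4 h4 hne (mem_lev4.1 h).2
      rcases mem_insert.1 hj with rfl | h'
      · exact z2B
      · exact (mem_lev4.1 (mem_inter.1 h').1).2)
  have eU : (G2 ∪ G3).card + (G2 ∩ G3).card = G2.card + G3.card := card_union_add_card_inter _ _
  have eF : (F2 \ F4).card + F4.card = F2.card := card_sdiff_add_card_eq_card sF
  have eG : (G2 \ G4).card + G4.card = G2.card := card_sdiff_add_card_eq_card sG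
  -- consequences of losses
  have l2 : ∀ i ∈ F2, i ∈ G1 → i + i ≠ 0 → i + i ∉ H2 → i ∈ F2 \ F4 := by
    intro i hi hi' h0 hn
    refine mem_sdiff.2 ⟨hi, fun h => hn (mem_lev4.2 ⟨h0, diag2 h1 h2 (mem_lev4.1 h).2
      (mem_lev4.1 hi').2⟩)⟩
  have l3 : ∀ i ∈ F2, i ∈ G2 ∪ G3 → i + i ≠ 0 → i + i ∉ H3 →
      i ∈ F2 \ F4 ∧ i ∈ G2 \ G4 ∧ i ∉ F3 := by
    intro i hi hi' h0 hn
    have hi3 : i ∉ F3 := by
      intro h
      apply hn
      refine mem_lev4.2 ⟨h0, diag3 h2 h4 hBA (mem_lev4.1 hi).2 (mem_lev4.1 h).2 ?_⟩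
      rcases mem_union.1 hi' with h | h
      · exact Or.inl (mem_lev4.1 h).2
      · exact Or.inr (mem_lev4.1 h).2
    refine ⟨mem_sdiff.2 ⟨hi, fun h => hi3 (mem_lev4.2 ⟨(mem_lev4.1 h).1,
      (mem_lev4.1 h).2.three h4⟩)⟩, mem_sdiff.2 ⟨?_, fun h => hi3 (mem_lev4.2 ⟨(mem_lev4.1 h).1,
      ((mem_lev4.1 h).2.mono hBA).three h4⟩)⟩, hi3⟩
    rcases mem_union.1 hi' with h | h
    · exact h
    · exact absurd (mem_lev4.2 ⟨(mem_lev4.1 h).1, (mem_lev4.1 h).2.mono hBA⟩) hi3
  have l4 : ∀ i ∈ F3, i ∈ G2 ∩ G3 → i + i ≠ 0 → i + i ∉ H4 →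
      i ∈ F2 \ F4 ∧ i ∈ G2 \ G4 ∧ i ∈ F3 := by
    intro i hi hi' h0 hn
    have hB2 := (mem_lev4.1 (mem_inter.1 hi').1).2
    have hB3 := (mem_lev4.1 (mem_inter.1 hi').2).2
    have hi4 : ¬ Q4f a A i := by
      intro h
      exact hn (mem_lev4.2 ⟨h0, diag4 h2 h4 h hB2 hB3⟩)
    refine ⟨mem_sdiff.2 ⟨mem_lev4.2 ⟨(mem_lev4.1 hi).1, hB2.mono hBA⟩,
      fun h => hi4 (mem_lev4.1 h).2⟩, mem_sdiff.2 ⟨(mem_inter.1 hi').1,
      fun h => hi4 ((mem_lev4.1 h).2.mono hBA)⟩, hi⟩
  have p1 : ∀ (S : Finset (G ⧸ AddSubgroup.zmultiples a)) (i : G ⧸ AddSubgroup.zmultiples a),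
      i ∈ S → 1 ≤ S.card := fun S i hi => card_pos.2 ⟨i, hi⟩
  have p2 : ∀ (S : Finset (G ⧸ AddSubgroup.zmultiples a)) (i j : G ⧸ AddSubgroup.zmultiples a),
      i ∈ S → j ∈ S → i ≠ j → 2 ≤ S.card := fun S i j hi hj hij =>
    one_lt_card.2 ⟨i, hi, j, hj, hij⟩
  rcases c2 with c2 | ⟨c2, i2, hi2, hi2', hi20, hi2n⟩
  · rcases c3 with c3 | ⟨c3, i3, hi3, hi3', hi30, hi3n⟩
    · rcases c4 with c4 | ⟨c4, i4, hi4, hi4', hi40, hi4n⟩
      · omega
      · obtain ⟨q1, q2, q3⟩ := l4 i4 hi4 hi4' hi40 hi4n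
        have := p1 _ _ q1
        omega
    · obtain ⟨r1, r2, r3⟩ := l3 i3 hi3 hi3' hi30 hi3n
      rcases c4 with c4 | ⟨c4, i4, hi4, hi4', hi40, hi4n⟩
      · have := p1 _ _ r1
        omega
      · obtain ⟨q1, q2, q3⟩ := l4 i4 hi4 hi4' hi40 hi4n
        have := p1 _ _ q1
        have := p1 _ _ q2
        omega
  · have t1 := p1 _ _ (l2 i2 hi2 hi2' hi20 hi2n)
    rcases c3 with c3 | ⟨c3, i3, hi3, hi3', hi30, hi3n⟩
    · rcases c4 with c4 | ⟨c4, i4, hi4, hi4', hi40, hi4n⟩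
      · omega
      · obtain ⟨q1, q2, q3⟩ := l4 i4 hi4 hi4' hi40 hi4n
        have := p1 _ _ q1
        have := p1 _ _ q2
        omega
    · obtain ⟨r1, r2, r3⟩ := l3 i3 hi3 hi3' hi30 hi3n
      rcases c4 with c4 | ⟨c4, i4, hi4, hi4', hi40, hi4n⟩
      · have := p1 _ _ r1
        have := p1 _ _ r2
        omega
      · obtain ⟨q1, q2, q3⟩ := l4 i4 hi4 hi4' hi40 hi4n
        have hne : i3 ≠ i4 := fun h => r3 (by rw [h]; exact q3)
        have := p2 _ _ _ r1 q1 hne
        have := p2 _ _ _ r2 q2 hne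
        omega

end Pool.Agent.Work.MP_59976d_co
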